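import Pool.Agent.N299.PX.Stm

/-!
# Project PX: comparison (`S_CMP`)
-/

set_option autoImplicit false

open Filter

noncomputable section

namespace Pool.Agent.N286.PX.CMP

open Pool.Agent.N299 Pool.Agent.N299.DT Pool.Agent.N299.ND Pool.Agent.N299.ND.Pub
open Pool.Agent.N299.PX Pool.Agent.N299.PX.Pub

theorem expand {B : Type} [CStarAlgebra B] (b : B) {K : ℕ} (v y : Fin K → B) :
    star (∑ q, v q * y q) * b * (∑ q, v q * y q) - ∑ q, star (y q) * b * y q =
      ∑ q, ∑ q', star (y q) * (star (v q) * b * v q' - (if q = q' then b else 0)) * y q' := by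
  have e1 : ∀ q : Fin K, star (y q) * b * y q =
      ∑ q', star (y q) * (if q = q' then b else 0) * y q' := by
    intro q
    rw [Finset.sum_eq_single q]
    · rw [if_pos rfl]
    · intro q' _ hq
      rw [if_neg (Ne.symm hq), mul_zero, zero_mul]
    · intro h
      exact absurd (Finset.mem_univ q) h
  rw [Finset.sum_congr rfl fun q _ => e1 q, star_sum, Finset.sum_mul, Finset.sum_mul,
    ← Finset.sum_sub_distrib]
  refine Finset.sum_congr rfl fun q _ => ?_
  rw [Finset.mul_sum, ← Finset.sum_sub_distrib]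
  refine Finset.sum_congr rfl fun q' _ => ?_
  rw [mul_sub, sub_mul, star_mul]
  simp only [mul_assoc]

theorem t_CMP (hID : S_ID) : S_CMP := by
  intro B _ I hI hR a _ b hb ha hpb hcl ε hε
  obtain ⟨K, y, hy⟩ := hID B a b ha hpb hcl (ε / 2) (by linarith)
  set S : ℝ := ∑ q, ‖y q‖ with hS
  have hS0 : 0 ≤ S := Finset.sum_nonneg fun q _ => norm_nonneg _
  have hden : 0 < 2 * (S ^ 2 + 1) := by positivity
  obtain ⟨r, hr, hr2⟩ := hR K b hb hpb (ε / (2 * (S ^ 2 + 1))) (div_pos hε hden)
  refine ⟨∑ q, r 0 q * y q, Submodule.sum_mem _ fun q _ => hI.mulR _ (hr 0 q) _, ?_⟩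
  have h1 : ‖star (∑ q, r 0 q * y q) * b * (∑ q, r 0 q * y q) - ∑ q, star (y q) * b * y q‖ ≤
      ε / 2 := by
    rw [expand]
    have hterm : ∀ q q', ‖star (y q) * (star (r 0 q) * b * r 0 q' - (if q = q' then b else 0)) *
        y q'‖ ≤ ‖y q‖ * (ε / (2 * (S ^ 2 + 1))) * ‖y q'‖ := by
      intro q q'
      have h2 := hr2 q q'
      rw [Fin.sum_univ_one] at h2
      refine (norm_mul_le _ _).trans (mul_le_mul_of_nonneg_right ?_ (norm_nonneg _))
      refine (norm_mul_le _ _).trans ?_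
      rw [norm_star]
      exact mul_le_mul_of_nonneg_left h2 (norm_nonneg _)
    calc ‖∑ q, ∑ q', star (y q) * (star (r 0 q) * b * r 0 q' - (if q = q' then b else 0)) * y q'‖ ≤
          ∑ q, ∑ q', ‖y q‖ * (ε / (2 * (S ^ 2 + 1))) * ‖y q'‖ :=
          (norm_sum_le _ _).trans (Finset.sum_le_sum fun q _ =>
            (norm_sum_le _ _).trans (Finset.sum_le_sum fun q' _ => hterm q q'))
      _ = S * (ε / (2 * (S ^ 2 + 1))) * S := by
          simp only [← Finset.mul_sum, ← Finset.sum_mul, ← hS]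
      _ = (ε / 2) * (S ^ 2 / (S ^ 2 + 1)) := by
          field_simp
      _ ≤ (ε / 2) * 1 := by
          refine mul_le_mul_of_nonneg_left ?_ (by linarith)
          rw [div_le_one (by positivity)]
          linarith
      _ = ε / 2 := mul_one _
  calc ‖star (∑ q, r 0 q * y q) * b * (∑ q, r 0 q * y q) - a‖ =
        ‖(star (∑ q, r 0 q * y q) * b * (∑ q, r 0 q * y q) - ∑ q, star (y q) * b * y q) -
          (a - ∑ q, star (y q) * b * y q)‖ := by congr 1; abel
    _ ≤ ε / 2 + ε / 2 := (norm_sub_le _ _).trans (add_le_add h1 hy)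
    _ = ε := by ring

end Pool.Agent.N286.PX.CMP
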